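import Pool.Agent.W993.MC.Stm

set_option autoImplicit false

/-!
# Project MC, part LI
-/

namespace Pool.Agent.W195.MC

open Pool.Agent.W993.MC Polynomial

theorem li (h : S_TR) : S_LI := by
  intro w
  rw [Fintype.linearIndependent_iff]
  intro g hg j
  have hpi : (Real.pi : ℝ) ≠ 0 := Real.pi_ne_zero
  set x : ℝ := Real.log 2 / Real.pi with hx
  -- the real relation
  have h1 : ∑ i : Fin (w / 2 + 1), (g i : ℝ) * ((Real.log 2) ^ (w - 2 * (i : ℕ)) *
      Real.pi ^ (2 * (i : ℕ))) = 0 := by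
    have h2 : ((∑ i : Fin (w / 2 + 1), (g i : ℝ) * ((Real.log 2) ^ (w - 2 * (i : ℕ)) *
      Real.pi ^ (2 * (i : ℕ))) : ℝ) : ℂ) = 0 := by
      rw [← hg]
      push_cast
      refine Finset.sum_congr rfl fun i _ => ?_
      rw [Rat.smul_def]
    exact_mod_cast h2
  -- division by `π ^ w`
  have h3 : ∑ i : Fin (w / 2 + 1), (g i : ℝ) * x ^ (w - 2 * (i : ℕ)) = 0 := by
    have h4 : ∑ i : Fin (w / 2 + 1), (g i : ℝ) * ((Real.log 2) ^ (w - 2 * (i : ℕ)) *
      Real.pi ^ (2 * (i : ℕ))) =
        Real.pi ^ w * ∑ i : Fin (w / 2 + 1), (g i : ℝ) * x ^ (w - 2 * (i : ℕ)) := by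
      rw [Finset.mul_sum]
      refine Finset.sum_congr rfl fun i _ => ?_
      have hi : 2 * (i : ℕ) ≤ w := by
        have := i.2
        omega
      have e : Real.pi ^ w = Real.pi ^ (w - 2 * (i : ℕ)) * Real.pi ^ (2 * (i : ℕ)) := by
        rw [← pow_add]
        congr 1
        omega
      rw [e, hx, div_pow]
      field_simp
    rw [h4] at h1
    exact (mul_eq_zero.1 h1).resolve_left (pow_ne_zero _ hpi)
  -- the polynomial
  have h5 : Transcendental ℚ x := h
  set p : ℚ[X] := ∑ i : Fin (w / 2 + 1), C (g i) * X ^ (w - 2 * (i : ℕ)) with hp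
  have h6 : aeval x p = 0 := by
    rw [hp, map_sum]
    rw [← h3]
    refine Finset.sum_congr rfl fun i _ => ?_
    rw [map_mul, map_pow, aeval_X, aeval_C]
    rfl
  have h7 : p = 0 := by
    by_contra hne
    exact h5 ⟨p, hne, h6⟩
  have h8 : p.coeff (w - 2 * (j : ℕ)) = g j := by
    rw [hp, finsetSum_coeff, Finset.sum_eq_single j]
    · simp
    · intro i _ hij
      rw [coeff_C_mul, coeff_X_pow, if_neg, mul_zero]
      intro he
      apply hij
      apply Fin.ext
      have hi := i.2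
      have hj := j.2
      omega
    · intro hj
      exact absurd (Finset.mem_univ j) hj
  rw [← h8, h7, coeff_zero]

end Pool.Agent.W195.MC
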